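import Mathlib
import Pool.Agent.H933R3.Evas

/-!
# Vertex deletions with links of several components, and sections modulo a subgroup
-/

set_option autoImplicit false

namespace Pool.Agent.Y857.KE

open Finset Pool.Agent.H933R3

variable {V : Type} [DecidableEq V]

/-- the 1-skeleton of `L` has at most `m` connected components: a set of at most `m` vertices
meets all components -/
def CompLE (m : ℕ) (L : Finset (Finset V)) : Prop :=
  ∃ R : Finset V, R.card ≤ m ∧ ∀ P : V → Prop, (∀ x y, {x, y} ∈ L → P x → P y) →
    (∀ r ∈ R, {r} ∈ L → P r) → ∀ y, {y} ∈ L → P y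

/-- `Dis c K`: the complex `K` can be reduced to the empty complex by deleting its vertices one
after the other, in such a way that the numbers `max (0, k - 1)`, where `k` is the number of
components of the link of the deleted vertex, have sum at most `c`. -/
inductive Dis : ℕ → Finset (Finset V) → Prop
  | empty (c : ℕ) : Dis c {∅}
  | step (K : Finset (Finset V)) (v : V) (a b c : ℕ) (habc : a + b ≤ c) (hv : {v} ∈ K)
      (hd : Dis a (del K v)) (hl : CompLE (b + 1) (link K v)) : Dis c K

/-- a cocycle on `L` minus `T` together with a section near `T`, modulo the subgroup `H`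
(products are written in the order of the fundamental group) -/
structure LSG {Γ : Type} [Group Γ] (L : Finset (Finset V)) (T : Finset V) (H : Subgroup Γ)
    (ψ : V → V → Γ) (col : V → V → Γ) : Prop where
  refl : ∀ u, u ∉ T → {u} ∈ L → ψ u u = 1
  comp : ∀ u v w, u ∉ T → v ∉ T → w ∉ T → {u, v, w} ∈ L → ψ v w * ψ u v = ψ u w
  cf : ∀ t ∈ T, ∀ u v, u ∉ T → v ∉ T → {t, u, v} ∈ L →
    (col t v)⁻¹ * (ψ u v * col t u) ∈ H
  ce : ∀ t ∈ T, ∀ t' ∈ T, ∀ u, u ∉ T → {t, t', u} ∈ L → (col t u)⁻¹ * col t' u ∈ H

/-- `g` is a flat section on `L` minus `T` modulo `H` -/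
def FlatG {Γ : Type} [Group Γ] (L : Finset (Finset V)) (T : Finset V) (H : Subgroup Γ)
    (ψ : V → V → Γ) (g : V → Γ) : Prop :=
  ∀ u v, u ∉ T → v ∉ T → {u, v} ∈ L → (g v)⁻¹ * (ψ u v * g u) ∈ H

/-- `g` extends the section given near `T`, modulo `H` -/
def ExtG {Γ : Type} [Group Γ] (L : Finset (Finset V)) (T : Finset V) (H : Subgroup Γ)
    (col : V → V → Γ) (g : V → Γ) : Prop :=
  ∀ t ∈ T, ∀ u, u ∉ T → {t, u} ∈ L → (col t u)⁻¹ * g u ∈ H

section grp
variable {Γ : Type} [Group Γ]

theorem e_trans {H : Subgroup Γ} {a b c : Γ} (h1 : a⁻¹ * b ∈ H) (h2 : b⁻¹ * c ∈ H) :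
    a⁻¹ * c ∈ H := by
  have := H.mul_mem h1 h2
  have e : a⁻¹ * b * (b⁻¹ * c) = a⁻¹ * c := by group
  rwa [e] at this

theorem e_symm {H : Subgroup Γ} {a b : Γ} (h1 : a⁻¹ * b ∈ H) : b⁻¹ * a ∈ H := by
  have := H.inv_mem h1
  have e : (a⁻¹ * b)⁻¹ = b⁻¹ * a := by group
  rwa [e] at this

theorem e_mul {H : Subgroup Γ} {a b : Γ} (c : Γ) (h1 : a⁻¹ * b ∈ H) :
    (c * a)⁻¹ * (c * b) ∈ H := by
  have e : (c * a)⁻¹ * (c * b) = a⁻¹ * b := by group
  rwa [e]

theorem e_refl {H : Subgroup Γ} (a : Γ) : a⁻¹ * a ∈ H := by
  rw [inv_mul_cancel]; exact H.one_mem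

end grp

theorem tri1 {v x y : V} : ({x, y, v} : Finset V) = {v, x, y} := by
  ext a; simp only [mem_insert, mem_singleton]; tauto

theorem sectG {Γ : Type} [Group Γ] {L : Finset (Finset V)} {c : ℕ} (h : Dis c L) (hL : IsCx L) :
    ∀ (T : Finset V) (H : Subgroup Γ) (ψ : V → V → Γ) (col : V → V → Γ),
      LSG L T H ψ col → (∀ t ∈ T, ∀ t' ∈ T, {t, t'} ∈ L) →
      (T = ∅ → ∃ (S : Finset Γ) (g : V → Γ), S.card ≤ c ∧
        FlatG L ∅ (Subgroup.closure (S : Set Γ)) ψ g) ∧
      (T.Nonempty → ∃ (S : Finset Γ) (g : V → Γ), S.card ≤ c ∧
        FlatG L T (H ⊔ Subgroup.closure (S : Set Γ)) ψ g ∧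
        ExtG L T (H ⊔ Subgroup.closure (S : Set Γ)) col g) := by
  classical
  induction h with
  | empty c =>
    intro T H ψ col hLS hcl
    refine ⟨fun _ => ⟨∅, fun _ => 1, by simp, ?_⟩, ?_⟩
    · intro u v _ _ huv
      exact absurd huv (by simp)
    · rintro ⟨t, ht⟩
      exact absurd (hcl t ht t ht) (by simp)
  | step K v a b c habc hv _ hl ihd =>
    have hsec := ihd (hL.del v)
    obtain ⟨R, hRc, hR⟩ := hl
    intro T H ψ col hLS hcl
    by_cases hvT : v ∈ T
    · -- the removed vertex is in `T`
      have aux : ∀ u, u ∉ T.erase v → u ≠ v → u ∉ T := fun u h1 h2 h3 =>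
        h1 (mem_erase.2 ⟨h2, h3⟩)
      refine ⟨fun h => by simp [h] at hvT, fun _ => ?_⟩
      have hdelLS : ∀ H' : Subgroup Γ, H ≤ H' ∨ T.erase v = ∅ → LSG (del K v) (T.erase v) H' ψ col := by
        intro H' hH'
        refine ⟨?_, ?_, ?_, ?_⟩
        · intro u hu huK
          rw [mem_del] at huK
          exact hLS.refl u (aux u hu (by rintro rfl; exact huK.2 (by simp))) huK.1
        · intro u x w hu hx hw huK
          rw [mem_del] at huK
          exact hLS.comp u x w (aux u hu (by rintro rfl; exact huK.2 (by simp)))
            (aux x hx (by rintro rfl; exact huK.2 (by simp)))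
            (aux w hw (by rintro rfl; exact huK.2 (by simp))) huK.1
        · intro t ht u w hu hw htK
          rw [mem_del] at htK
          rcases hH' with hH' | hH'
          · exact hH' (hLS.cf t (mem_of_mem_erase ht) u w
              (aux u hu (by rintro rfl; exact htK.2 (by simp)))
              (aux w hw (by rintro rfl; exact htK.2 (by simp))) htK.1)
          · rw [hH'] at ht; simp at ht
        · intro t ht t' ht' u hu htK
          rw [mem_del] at htK
          rcases hH' with hH' | hH'
          · exact hH' (hLS.ce t (mem_of_mem_erase ht) t' (mem_of_mem_erase ht') u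
              (aux u hu (by rintro rfl; exact htK.2 (by simp))) htK.1)
          · rw [hH'] at ht; simp at ht
      have hcl' : ∀ t ∈ T.erase v, ∀ t' ∈ T.erase v, {t, t'} ∈ del K v := by
        intro t ht t' ht'
        rw [mem_del]
        refine ⟨hcl t (mem_of_mem_erase ht) t' (mem_of_mem_erase ht'), ?_⟩
        simp only [mem_insert, mem_singleton, not_or]
        exact ⟨(ne_of_mem_erase ht).symm, (ne_of_mem_erase ht').symm⟩
      have hflat : ∀ (H' : Subgroup Γ) (g : V → Γ), FlatG (del K v) (T.erase v) H' ψ g →
          FlatG K T H' ψ g := by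
        intro H' g hg u w hu hw huw
        refine hg u w (fun h => hu (mem_of_mem_erase h)) (fun h => hw (mem_of_mem_erase h)) ?_
        rw [mem_del]
        refine ⟨huw, ?_⟩
        simp only [mem_insert, mem_singleton, not_or]
        exact ⟨fun h => hu (h ▸ hvT), fun h => hw (h ▸ hvT)⟩
      rcases (T.erase v).eq_empty_or_nonempty with hT | hT
      · -- `T = {v}`
        obtain ⟨S, g, hSc, hg⟩ := (hsec (T.erase v) ⊥ ψ col (hdelLS ⊥ (Or.inr hT)) hcl').1 hT
        have hne : ∀ z, v ≠ z → z ∉ T := by
          intro z hz hzT
          have : z ∈ T.erase v := mem_erase.2 ⟨hz.symm, hzT⟩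
          rw [hT] at this
          simp at this
        rcases R.eq_empty_or_nonempty with hRe | ⟨r0, hr0⟩
        · -- empty link
          have hnl : ∀ y, {y} ∉ link K v := by
            intro y hy
            exact hR (fun _ => False) (fun _ _ _ h => h) (by simp [hRe]) y hy
          refine ⟨S, g, hSc.trans (by omega), hflat _ g (fun u w hu hw huw => ?_), ?_⟩
          · rw [hT] at hu hw
            exact (le_sup_right (a := H) : Subgroup.closure (S : Set Γ) ≤ _) (hg u w hu hw huw)
          · intro t ht u hu htu
            have htv : t = v := by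
              by_contra hne'
              exact hne t (fun h => hne' h.symm) ht
            subst htv
            exact absurd ((mem_link' hL).2 ⟨by rintro rfl; exact hu ht, htu⟩) (hnl u)
        · -- normalise at `r0`
          let γ : Γ := (g r0)⁻¹ * col v r0
          let S1 : Finset Γ := S.image (fun s => γ⁻¹ * s * γ)
          let S2 : Finset Γ := (R.erase r0).image (fun r => (col v r)⁻¹ * (g r * γ))
          let H2 : Subgroup Γ := H ⊔ Subgroup.closure ((S1 ∪ S2 : Finset Γ) : Set Γ)
          have hsub : ∀ x ∈ Subgroup.closure (S : Set Γ), γ⁻¹ * x * γ ∈ H2 := by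
            intro x hx
            induction hx using Subgroup.closure_induction with
            | mem x hx =>
              refine (le_sup_right (a := H) : _ ≤ H2) (Subgroup.subset_closure ?_)
              simp only [coe_union, Set.mem_union, mem_coe]
              exact Or.inl (mem_image_of_mem _ hx)
            | one => simp
            | mul x y _ _ hx hy =>
              have := H2.mul_mem hx hy
              have e : γ⁻¹ * x * γ * (γ⁻¹ * y * γ) = γ⁻¹ * (x * y) * γ := by group
              rwa [e] at this
            | inv x _ hx =>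
              have := H2.inv_mem hx
              have e : (γ⁻¹ * x * γ)⁻¹ = γ⁻¹ * x⁻¹ * γ := by group
              rwa [e] at this
          have hg' : FlatG (del K v) ∅ H2 ψ (fun x => g x * γ) := by
            intro u w hu hw huw
            have := hsub _ (hg u w hu hw huw)
            have e : γ⁻¹ * ((g w)⁻¹ * (ψ u w * g u)) * γ = (g w * γ)⁻¹ * (ψ u w * (g u * γ)) := by
              group
            rwa [e] at this
          refine ⟨S1 ∪ S2, fun x => g x * γ, ?_, ?_, ?_⟩
          · have h1 : S1.card ≤ S.card := card_image_le
            have h2 : S2.card ≤ (R.erase r0).card := card_image_le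
            have h3 : (R.erase r0).card = R.card - 1 := card_erase_of_mem hr0
            have h4 := card_union_le S1 S2
            omega
          · refine hflat _ _ ?_
            rw [hT]
            exact hg'
          · intro t ht u hu htu
            have htv : t = v := by
              by_contra hne'
              exact hne t (fun h => hne' h.symm) ht
            subst htv
            refine hR (fun y => (col t y)⁻¹ * (g y * γ) ∈ H2) ?_ ?_ u
              ((mem_link' hL).2 ⟨by rintro rfl; exact hu ht, htu⟩)
            · intro x y hxy hx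
              rw [mem_link2 hL] at hxy
              obtain ⟨h1, h2, h3⟩ := hxy
              have hcf : (col t y)⁻¹ * (ψ x y * col t x) ∈ H2 :=
                (le_sup_left : H ≤ H2) (hLS.cf t ht x y (hne x h1) (hne y h2) h3)
              have hfl := hg' x y (by simp) (by simp)
                (mem_del.2 ⟨(hL.sub2 h3).2.2.1, by simp [h1, h2]⟩)
              exact e_trans (e_trans hcf (e_mul (ψ x y) hx)) (e_symm hfl)
            · intro r hr hrl
              by_cases hrr : r = r0
              · subst hrr
                have e : (col t r)⁻¹ * (g r * γ) = 1 := by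
                  show (col t r)⁻¹ * (g r * ((g r)⁻¹ * col t r)) = 1
                  group
                show (col t r)⁻¹ * (g r * γ) ∈ H2
                rw [e]
                exact H2.one_mem
              · refine (le_sup_right (a := H) : _ ≤ H2) (Subgroup.subset_closure ?_)
                simp only [coe_union, Set.mem_union, mem_coe]
                exact Or.inr (mem_image_of_mem (fun r => (col t r)⁻¹ * (g r * γ))
                  (mem_erase.2 ⟨hrr, hr⟩))
      · -- `T` has another vertex
        obtain ⟨S, g, hSc, hg1, hg2⟩ :=
          (hsec (T.erase v) H ψ col (hdelLS H (Or.inl le_rfl)) hcl').2 hT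
        obtain ⟨t0, ht0⟩ := hT
        have ht0l : {t0} ∈ link K v := (mem_link' hL).2 ⟨(ne_of_mem_erase ht0).symm,
          hcl v hvT t0 (mem_of_mem_erase ht0)⟩
        obtain ⟨r0, hr0, hr0l, hr0c⟩ : ∃ r0 ∈ R, {r0} ∈ link K v ∧ ∀ P : V → Prop,
            (∀ x y, {x, y} ∈ link K v → P x → P y) → P r0 → P t0 := by
          by_contra hcon
          push Not at hcon
          obtain ⟨P, hP, hP1, hP2⟩ := hR (fun y => ∃ P : V → Prop,
            (∀ x y, {x, y} ∈ link K v → P x → P y) ∧ P y ∧ ¬ P t0) (by
              rintro x y hxy ⟨P, hP, hPx, hPt⟩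
              exact ⟨P, hP, hP x y hxy hPx, hPt⟩) (by
              intro r hr hrl
              obtain ⟨P, hP, hPr, hPt⟩ := hcon r hr hrl
              exact ⟨P, hP, hPr, hPt⟩) t0 ht0l
          exact hP2 hP1
        let H1 : Subgroup Γ := H ⊔ Subgroup.closure (S : Set Γ)
        let S2 : Finset Γ := (R.erase r0).image (fun r => (col v r)⁻¹ * g r)
        let H2 : Subgroup Γ := H ⊔ Subgroup.closure ((S ∪ S2 : Finset Γ) : Set Γ)
        have h12 : H1 ≤ H2 := by
          refine sup_le_sup_left (Subgroup.closure_mono ?_) H
          simp only [coe_union]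
          exact Set.subset_union_left
        have hH2 : H ≤ H2 := le_sup_left
        let Q : V → Prop := fun y => y ∈ T.erase v ∨ (col v y)⁻¹ * g y ∈ H2
        have hQ : ∀ x y, {x, y} ∈ link K v → Q x → Q y := by
          intro x y hxy hx
          rw [mem_link2 hL] at hxy
          obtain ⟨h1, h2, h3⟩ := hxy
          by_cases hy : y ∈ T.erase v
          · exact Or.inl hy
          · right
            have hyT : y ∉ T := fun h => hy (mem_erase.2 ⟨h2.symm, h⟩)
            by_cases hxT : x ∈ T.erase v
            · have e1 := h12 (hg2 x hxT y hy (mem_del.2 ⟨(hL.sub2 h3).2.2.1, by simp [h1, h2]⟩))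
              have e2 := hH2 (hLS.ce v hvT x (mem_of_mem_erase hxT) y hyT h3)
              exact e_trans e2 e1
            · have hxT' : x ∉ T := fun h => hxT (mem_erase.2 ⟨h1.symm, h⟩)
              rcases hx with hx | hx
              · exact absurd hx hxT
              · have e1 := hH2 (hLS.cf v hvT x y hxT' hyT h3)
                have e2 := h12 (hg1 x y hxT hy
                  (mem_del.2 ⟨(hL.sub2 h3).2.2.1, by simp [h1, h2]⟩))
                exact e_trans (e_trans e1 (e_mul (ψ x y) hx)) (e_symm e2)
        have hQr0 : Q r0 := by
          by_contra hnQ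
          have := hr0c (fun y => ¬ Q y) (by
            intro x y hxy hx hy
            exact hx (hQ y x (by rwa [pair_comm]) hy)) hnQ
          exact this (Or.inl ht0)
        refine ⟨S ∪ S2, g, ?_, ?_, ?_⟩
        · have h2 : S2.card ≤ (R.erase r0).card := card_image_le
          have h3 : (R.erase r0).card = R.card - 1 := card_erase_of_mem hr0
          have h4 := card_union_le S S2
          omega
        · exact hflat H2 g (fun u w hu hw huw => h12 (hg1 u w hu hw huw))
        · intro t ht u hu htu
          have huv : v ≠ u := fun h => hu (h ▸ hvT)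
          by_cases htv : t = v
          · subst htv
            have := hR Q hQ (by
              intro r hr hrl
              by_cases hrr : r = r0
              · rw [hrr]; exact hQr0
              · right
                refine (le_sup_right (a := H) : _ ≤ H2) (Subgroup.subset_closure ?_)
                simp only [coe_union, Set.mem_union, mem_coe]
                exact Or.inr (mem_image_of_mem (fun r => (col t r)⁻¹ * g r)
                  (mem_erase.2 ⟨hrr, hr⟩))) u ((mem_link' hL).2 ⟨huv, htu⟩)
            rcases this with h1 | h1
            · exact absurd (mem_of_mem_erase h1) hu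
            · exact h1
          · refine h12 (hg2 t (mem_erase.2 ⟨htv, ht⟩) u (fun h => hu (mem_of_mem_erase h)) ?_)
            rw [mem_del]
            refine ⟨htu, ?_⟩
            simp only [mem_insert, mem_singleton, not_or]
            exact ⟨fun h => htv h.symm, huv⟩
    · -- the removed vertex is not in `T`
      have hdelLS : LSG (del K v) T H ψ col :=
        ⟨fun u hu h => hLS.refl u hu (mem_del.1 h).1,
          fun u x w hu hx hw h => hLS.comp u x w hu hx hw (mem_del.1 h).1,
          fun t ht u w hu hw h => hLS.cf t ht u w hu hw (mem_del.1 h).1,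
          fun t ht t' ht' u hu h => hLS.ce t ht t' ht' u hu (mem_del.1 h).1⟩
      have hcl' : ∀ t ∈ T, ∀ t' ∈ T, {t, t'} ∈ del K v := by
        intro t ht t' ht'
        rw [mem_del]
        refine ⟨hcl t ht t' ht', ?_⟩
        simp only [mem_insert, mem_singleton, not_or]
        exact ⟨fun h => hvT (h ▸ ht), fun h => hvT (h ▸ ht')⟩
      -- extension over `v`
      have hext : ∀ (H1 : Subgroup Γ) (g : V → Γ), (H ≤ H1 ∨ T = ∅) →
          FlatG (del K v) T H1 ψ g → ExtG (del K v) T H1 col g →
          ∃ (S2 : Finset Γ) (x : Γ), S2.card ≤ b ∧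
            FlatG K T (H1 ⊔ Subgroup.closure (S2 : Set Γ)) ψ (Function.update g v x) ∧
            ExtG K T (H1 ⊔ Subgroup.closure (S2 : Set Γ)) col (Function.update g v x) := by
        intro H1 g hHH1 hg1 hg2
        let φ : V → Γ := fun y => if y ∈ T then col y v else ψ y v * g y
        obtain ⟨S2, x, hS2, hx⟩ : ∃ (S2 : Finset Γ) (x : Γ), S2.card ≤ b ∧
            ∀ r ∈ R, x⁻¹ * φ r ∈ Subgroup.closure (S2 : Set Γ) := by
          rcases R.eq_empty_or_nonempty with hRe | ⟨r0, hr0⟩
          · exact ⟨∅, 1, by simp, by simp [hRe]⟩
          · refine ⟨(R.erase r0).image (fun r => (φ r0)⁻¹ * φ r), φ r0, ?_, ?_⟩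
            · have h2 : ((R.erase r0).image (fun r => (φ r0)⁻¹ * φ r)).card ≤
                (R.erase r0).card := card_image_le
              have h3 : (R.erase r0).card = R.card - 1 := card_erase_of_mem hr0
              omega
            · intro r hr
              by_cases hrr : r = r0
              · rw [hrr]; exact e_refl _
              · refine Subgroup.subset_closure ?_
                rw [mem_coe]
                exact mem_image_of_mem (fun r => (φ r0)⁻¹ * φ r) (mem_erase.2 ⟨hrr, hr⟩)
        let H2 : Subgroup Γ := H1 ⊔ Subgroup.closure (S2 : Set Γ)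
        have h12 : H1 ≤ H2 := le_sup_left
        have hHT : ∀ t ∈ T, H ≤ H2 := by
          intro t ht
          rcases hHH1 with h | h
          · exact h.trans h12
          · rw [h] at ht; simp at ht
        have hφ : ∀ y, {y} ∈ link K v → x⁻¹ * φ y ∈ H2 := by
          refine hR (fun y => x⁻¹ * φ y ∈ H2) ?_ (fun r hr _ => (le_sup_right : _ ≤ H2) (hx r hr))
          intro y z hyz hy
          rw [mem_link2 hL] at hyz
          obtain ⟨h1, h2, h3⟩ := hyz
          have h4 : {y, z} ∈ del K v := mem_del.2 ⟨(hL.sub2 h3).2.2.1, by simp [h1, h2]⟩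
          have h5 : {y, z, v} ∈ K := by rw [tri1]; exact h3
          have h6 : {z, y, v} ∈ K := by
            have : ({z, y, v} : Finset V) = {v, y, z} := by
              ext a; simp only [mem_insert, mem_singleton]; tauto
            rw [this]; exact h3
          have h7 : {z, y} ∈ del K v := by rwa [pair_comm]
          refine e_trans hy ?_
          show (if y ∈ T then col y v else ψ y v * g y)⁻¹ *
            (if z ∈ T then col z v else ψ z v * g z) ∈ H2
          by_cases hyT : y ∈ T <;> by_cases hzT : z ∈ T
          · rw [if_pos hyT, if_pos hzT]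
            exact hHT y hyT (hLS.ce y hyT z hzT v hvT h5)
          · rw [if_pos hyT, if_neg hzT]
            -- y ∈ T, z ∉ T
            have e1 := h12 (hg2 y hyT z hzT h4)
            have e2 := hHT y hyT (hLS.cf y hyT z v hzT hvT h5)
            -- col y v ~ ψ z v * col y z ~ ψ z v * g z
            exact e_trans e2 (e_mul (ψ z v) e1)
          · rw [if_neg hyT, if_pos hzT]
            have e1 := h12 (hg2 z hzT y hyT h7)
            have e2 := hHT z hzT (hLS.cf z hzT y v hyT hvT h6)
            exact e_symm (e_trans e2 (e_mul (ψ y v) e1))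
          · rw [if_neg hyT, if_neg hzT]
            have e1 := h12 (hg1 y z hyT hzT h4)
            have e2 := hLS.comp y z v hyT hzT hvT h5
            -- ψ y v * g y = ψ z v * (ψ y z * g y) ~ ψ z v * g z
            have e3 : ψ y v * g y = ψ z v * (ψ y z * g y) := by rw [← e2]; group
            rw [e3]
            exact e_mul (ψ z v) (e_symm e1)
        refine ⟨S2, x, hS2, ?_, ?_⟩
        · intro u w hu hw huw
          by_cases huv : u = v
          · by_cases hwv : w = v
            · subst huv
              subst hwv
              rw [Function.update_self, hLS.refl w hvT hv, one_mul]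
              exact e_refl _
            · subst huv
              rw [Function.update_self, Function.update_of_ne hwv]
              have h1 := hφ w ((mem_link' hL).2 ⟨fun h => hwv h.symm, huw⟩)
              have h1' : x⁻¹ * (ψ w u * g w) ∈ H2 := by
                have : φ w = ψ w u * g w := if_neg hw
                rwa [this] at h1
              have h2 : {w, u, w} ∈ K := by
                have : ({w, u, w} : Finset V) = {u, w} := by
                  ext a; simp only [mem_insert, mem_singleton]; tauto
                rw [this]; exact huw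
              have h3 := hLS.comp w u w hw hu hw h2
              rw [hLS.refl w hw (hL.2 _ huw _ (by simp))] at h3
              have h4 := e_mul (ψ u w) (e_symm h1')
              rw [← mul_assoc (ψ u w) (ψ w u), h3, one_mul] at h4
              exact h4
          · by_cases hwv : w = v
            · subst hwv
              rw [Function.update_self, Function.update_of_ne huv]
              have h1 := hφ u ((mem_link' hL).2 ⟨fun h => huv h.symm, by rwa [pair_comm]⟩)
              have : φ u = ψ u w * g u := if_neg hu
              rwa [this] at h1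
            · rw [Function.update_of_ne huv, Function.update_of_ne hwv]
              refine h12 (hg1 u w hu hw (mem_del.2 ⟨huw, ?_⟩))
              simp only [mem_insert, mem_singleton, not_or]
              exact ⟨fun h => huv h.symm, fun h => hwv h.symm⟩
        · intro t ht u hu htu
          have htv : t ≠ v := fun h => hvT (h ▸ ht)
          by_cases huv : u = v
          · subst huv
            rw [Function.update_self]
            have h1 := hφ t ((mem_link' hL).2 ⟨htv.symm, by rwa [pair_comm]⟩)
            have : φ t = col t u := if_pos ht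
            rw [this] at h1
            exact e_symm h1
          · rw [Function.update_of_ne huv]
            refine h12 (hg2 t ht u hu (mem_del.2 ⟨htu, ?_⟩))
            simp only [mem_insert, mem_singleton, not_or]
            exact ⟨fun h => htv h.symm, fun h => huv h.symm⟩
      obtain ⟨hs1, hs2⟩ := hsec T H ψ col hdelLS hcl'
      have hcup : ∀ S S2 : Finset Γ, ((S ∪ S2 : Finset Γ) : Set Γ) = (S : Set Γ) ∪ S2 := by
        intro S S2; simp
      refine ⟨?_, ?_⟩
      · intro hT
        obtain ⟨S, g, hSc, hg⟩ := hs1 hT
        obtain ⟨S2, x, hS2, hf, -⟩ := hext (Subgroup.closure (S : Set Γ)) g (Or.inr hT)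
          (by rw [hT]; exact hg) (by intro t ht; rw [hT] at ht; simp at ht)
        refine ⟨S ∪ S2, Function.update g v x, ?_, ?_⟩
        · have h4 := card_union_le S S2
          omega
        · rw [hT, ← Subgroup.closure_union, ← hcup] at hf
          exact hf
      · intro hT
        obtain ⟨S, g, hSc, hg1, hg2⟩ := hs2 hT
        obtain ⟨S2, x, hS2, hf, he⟩ := hext _ g (Or.inl le_sup_left) hg1 hg2
        refine ⟨S ∪ S2, Function.update g v x, ?_, ?_, ?_⟩
        · have h4 := card_union_le S S2
          omega
        · rw [sup_assoc, ← Subgroup.closure_union, ← hcup] at hf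
          exact hf
        · rw [sup_assoc, ← Subgroup.closure_union, ← hcup] at he
          exact he

end Pool.Agent.Y857.KE
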