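import Mathlib
import Pool.Agent.Y857.KE.Sec

/-!
# Decision trees and vertex deletions
-/

set_option autoImplicit false

namespace Pool.Agent.Y857.KE

open Finset Pool.Agent.H933R3

variable {V : Type} [DecidableEq V]

/-- decision trees: at a node the question is whether the vertex belongs to the unknown set -/
inductive DT (V : Type) : Type
  | leaf : DT V
  | node (v : V) (no yes : DT V) : DT V

/-- the list of the vertices queried on the input `σ` -/
def run : DT V → Finset V → List V
  | DT.leaf, _ => []
  | DT.node v no yes, σ => v :: (if v ∈ σ then run yes σ else run no σ)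

/-- the tree decides for all subsets of `X` whether they belong to `K`: it queries only elements of
`X`, none of them twice, and the answers determine the membership in `K` -/
def DecOn (t : DT V) (X : Finset V) (K : Finset (Finset V)) : Prop :=
  (∀ σ, σ ⊆ X → (run t σ).Nodup ∧ ∀ v ∈ run t σ, v ∈ X) ∧
    ∀ σ τ, σ ⊆ X → τ ⊆ X → (∀ v ∈ run t σ, (v ∈ σ ↔ v ∈ τ)) → (σ ∈ K ↔ τ ∈ K)

/-- the evaders: the inputs for which all elements of `X` are queried -/
def evd (t : DT V) (X : Finset V) : Finset (Finset V) :=
  X.powerset.filter (fun σ => (run t σ).length = X.card)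

theorem run_congr (t : DT V) (σ τ : Finset V) (h : ∀ v ∈ run t σ, (v ∈ σ ↔ v ∈ τ)) :
    run t τ = run t σ := by
  induction t with
  | leaf => rfl
  | node v no yes ihn ihy =>
    have hv : v ∈ σ ↔ v ∈ τ := h v (by simp [run])
    simp only [run]
    by_cases hσ : v ∈ σ
    · rw [if_pos hσ, if_pos (hv.1 hσ)]
      simp only [run, if_pos hσ, List.mem_cons] at h
      rw [ihy fun x hx => h x (Or.inr hx)]
    · rw [if_neg hσ, if_neg (fun h' => hσ (hv.2 h'))]
      simp only [run, if_neg hσ, List.mem_cons] at h
      rw [ihn fun x hx => h x (Or.inr hx)]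

theorem dec_mem {v : V} {no yes : DT V} {X : Finset V} {K : Finset (Finset V)}
    (h : DecOn (DT.node v no yes) X K) : v ∈ X :=
  (h.1 ∅ (by simp)).2 v (by simp [run])

theorem dec_no {v : V} {no yes : DT V} {X : Finset V} {K : Finset (Finset V)}
    (h : DecOn (DT.node v no yes) X K) : DecOn no (X.erase v) (del K v) := by
  have hr : ∀ σ, σ ⊆ X.erase v → v ∉ σ ∧ σ ⊆ X ∧ run (DT.node v no yes) σ = v :: run no σ := by
    intro σ hσ
    have hv : v ∉ σ := fun h' => by simpa using hσ h'
    exact ⟨hv, hσ.trans (erase_subset _ _), by simp only [run, if_neg hv]⟩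
  refine ⟨?_, ?_⟩
  · intro σ hσ
    obtain ⟨h1, h2, h3⟩ := hr σ hσ
    have := h.1 σ h2
    rw [h3, List.nodup_cons] at this
    refine ⟨this.1.2, fun x hx => mem_erase.2 ⟨?_, this.2 x (by simp [hx])⟩⟩
    rintro rfl
    exact this.1.1 hx
  · intro σ τ hσ hτ hag
    obtain ⟨h1, h2, h3⟩ := hr σ hσ
    obtain ⟨h1', h2', h3'⟩ := hr τ hτ
    rw [mem_del, mem_del]
    have := h.2 σ τ h2 h2' (by
      rw [h3]
      intro x hx
      rw [List.mem_cons] at hx
      rcases hx with rfl | hx
      · exact ⟨fun h => absurd h h1, fun h => absurd h h1'⟩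
      · exact hag x hx)
    rw [this]
    exact ⟨fun h => ⟨h.1, h1'⟩, fun h => ⟨h.1, h1⟩⟩

theorem run_insert {v : V} {no yes : DT V} {X : Finset V} {K : Finset (Finset V)}
    (h : DecOn (DT.node v no yes) X K) {σ : Finset V} (hσ : σ ⊆ X.erase v) :
    insert v σ ⊆ X ∧ run (DT.node v no yes) (insert v σ) = v :: run yes σ ∧
      v ∉ run yes σ ∧ (run yes σ).Nodup ∧ ∀ x ∈ run yes σ, x ∈ X.erase v := by
  have hv : v ∉ σ := fun h' => by simpa using hσ h'
  have h1 : insert v σ ⊆ X := insert_subset (dec_mem h) (hσ.trans (erase_subset _ _))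
  have h2 : run (DT.node v no yes) (insert v σ) = v :: run yes (insert v σ) := by
    simp [run]
  have h3 := h.1 _ h1
  rw [h2, List.nodup_cons] at h3
  have h4 : run yes σ = run yes (insert v σ) := by
    refine run_congr yes (insert v σ) σ ?_
    intro x hx
    have : x ≠ v := by
      rintro rfl
      exact h3.1.1 hx
    simp [this]
  rw [h4]
  refine ⟨h1, h2, h3.1.1, h3.1.2, fun x hx => mem_erase.2 ⟨?_, h3.2 x (by simp [hx])⟩⟩
  rintro rfl
  exact h3.1.1 hx

theorem mem_link_raw {K : Finset (Finset V)} {v : V} {σ : Finset V} :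
    σ ∈ link K v ↔ σ ∈ K ∧ v ∉ σ ∧ insert v σ ∈ K := by
  simp [link]

theorem dec_yes {v : V} {no yes : DT V} {X : Finset V} {K : Finset (Finset V)}
    (h : DecOn (DT.node v no yes) X K) (hK : IsCx K) : DecOn yes (X.erase v) (link K v) := by
  refine ⟨?_, ?_⟩
  · intro σ hσ
    obtain ⟨h1, h2, h3, h4, h5⟩ := run_insert h hσ
    exact ⟨h4, h5⟩
  · intro σ τ hσ hτ hag
    obtain ⟨h1, h2, h3, h4, h5⟩ := run_insert h hσ
    obtain ⟨h1', h2', h3', h4', h5'⟩ := run_insert h hτ
    have hvσ : v ∉ σ := fun h' => by simpa using hσ h'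
    have hvτ : v ∉ τ := fun h' => by simpa using hτ h'
    rw [mem_link hK, mem_link hK]
    have := h.2 _ _ h1 h1' (by
      rw [h2]
      intro x hx
      rw [List.mem_cons] at hx
      rcases hx with rfl | hx
      · simp
      · have : x ≠ v := by
          rintro rfl
          exact h3 hx
        simp only [mem_insert, this, false_or]
        exact hag x hx)
    rw [this]
    exact ⟨fun h => ⟨hvτ, h.2⟩, fun h => ⟨hvσ, h.2⟩⟩

theorem evd_node {v : V} {no yes : DT V} {X : Finset V} {K : Finset (Finset V)}
    (h : DecOn (DT.node v no yes) X K) :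
    (evd (DT.node v no yes) X).card = (evd no (X.erase v)).card + (evd yes (X.erase v)).card := by
  have hvX := dec_mem h
  have hc : X.card = (X.erase v).card + 1 := (card_erase_add_one hvX).symm
  have h1 : (evd (DT.node v no yes) X).filter (fun σ => v ∉ σ) = evd no (X.erase v) := by
    ext σ
    simp only [evd, mem_filter, mem_powerset]
    constructor
    · rintro ⟨⟨h1, h2⟩, h3⟩
      refine ⟨subset_erase.2 ⟨h1, h3⟩, ?_⟩
      simp only [run, if_neg h3, List.length_cons] at h2
      omega
    · rintro ⟨h1, h2⟩
      obtain ⟨h3, h4⟩ := subset_erase.1 h1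
      refine ⟨⟨h3, ?_⟩, h4⟩
      simp only [run, if_neg h4, List.length_cons]
      omega
  have h2 : (evd (DT.node v no yes) X).filter (fun σ => ¬ v ∉ σ) =
      (evd yes (X.erase v)).image (insert v) := by
    ext σ
    simp only [evd, mem_filter, mem_powerset, mem_image, not_not]
    constructor
    · rintro ⟨⟨h1, h2⟩, h3⟩
      refine ⟨σ.erase v, ⟨erase_subset_erase _ h1, ?_⟩, insert_erase h3⟩
      have h4 := run_insert h (erase_subset_erase v h1)
      rw [insert_erase h3] at h4
      rw [h4.2.1, List.length_cons] at h2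
      omega
    · rintro ⟨τ, ⟨h1, h2⟩, rfl⟩
      have h4 := run_insert h h1
      refine ⟨⟨h4.1, ?_⟩, by simp⟩
      rw [h4.2.1, List.length_cons]
      omega
  rw [← card_filter_add_card_filter_not (s := evd (DT.node v no yes) X) (fun σ => v ∉ σ), h1, h2,
    card_image_of_injOn]
  intro σ hσ τ hτ hst
  simp only [evd, coe_filter, mem_powerset, Set.mem_ofPred_eq] at hσ hτ
  have h3 := (subset_erase.1 hσ.1).2
  have h4 := (subset_erase.1 hτ.1).2
  rw [← erase_insert h3, ← erase_insert h4]
  exact congrArg (fun s => s.erase v) hst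

theorem evd_empty {t : DT V} {K : Finset (Finset V)} (h : DecOn t ∅ K) :
    (evd t ∅).card = 1 := by
  have h1 := (h.1 ∅ (by simp)).2
  have h2 : run t ∅ = [] := by
    rw [List.eq_nil_iff_forall_not_mem]
    intro x hx
    exact absurd (h1 x hx) (by simp)
  have : evd t ∅ = {∅} := by
    ext σ
    simp only [evd, powerset_empty, mem_filter, mem_singleton, card_empty]
    constructor
    · exact fun h => h.1
    · rintro rfl
      exact ⟨rfl, by rw [h2]; rfl⟩
  rw [this]
  simp

theorem Dis.mono {K : Finset (Finset V)} {c c' : ℕ} (h : Dis c K) (hc : c ≤ c') : Dis c' K := by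
  cases h with
  | empty => exact Dis.empty c'
  | step _ v a b _ habc hv hd hl => exact Dis.step K v a b c' (habc.trans hc) hv hd hl

theorem CompLE.mono {K : Finset (Finset V)} {c c' : ℕ} (h : CompLE c K) (hc : c ≤ c') :
    CompLE c' K := by
  obtain ⟨R, h1, h2⟩ := h
  exact ⟨R, h1.trans hc, h2⟩

theorem comp_simplex (X : Finset V) : CompLE 1 X.powerset := by
  rcases X.eq_empty_or_nonempty with hX | ⟨x, hx⟩
  · refine ⟨∅, by simp, ?_⟩
    intro P _ _ y hy
    rw [hX] at hy
    simp at hy
  · refine ⟨{x}, by simp, ?_⟩
    intro P hP hR y hy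
    refine hP x y ?_ (hR x (by simp) (by simpa using hx))
    rw [mem_powerset] at hy ⊢
    intro a ha
    simp only [mem_insert, mem_singleton] at ha
    rcases ha with rfl | rfl
    · exact hx
    · exact hy (by simp)

theorem dis_simplex (X : Finset V) : Dis 0 X.powerset := by
  induction X using Finset.induction_on with
  | empty => rw [powerset_empty]; exact Dis.empty 0
  | insert v X hv ih =>
    have h1 : del (insert v X).powerset v = X.powerset := by
      ext σ
      rw [mem_del, mem_powerset, mem_powerset]
      constructor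
      · rintro ⟨h1, h2⟩
        exact (subset_insert_iff_of_notMem h2).1 h1
      · intro h
        exact ⟨h.trans (subset_insert _ _), fun h' => hv (h h')⟩
    have h2 : link (insert v X).powerset v = X.powerset := by
      ext σ
      rw [mem_link_raw, mem_powerset, mem_powerset, mem_powerset]
      constructor
      · rintro ⟨h1, h2, _⟩
        exact (subset_insert_iff_of_notMem h2).1 h1
      · intro h
        exact ⟨h.trans (subset_insert _ _), fun h' => hv (h h'), insert_subset_insert _ h⟩
    refine Dis.step _ v 0 0 0 le_rfl (by simp) (by rw [h1]; exact ih) ?_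
    rw [h2]
    exact comp_simplex X

theorem dt_main (t : DT V) : ∀ (X : Finset V) (K : Finset (Finset V)), DecOn t X K →
    (IsCx K ∨ K = ∅) → (∀ s ∈ K, s ⊆ X) →
    (X.Nonempty → Even (evd t X).card) ∧
    (IsCx K → Dis ((evd t X).card / 2) K ∧ CompLE ((evd t X).card / 2 + 1) K ∧
      ((∀ x, {x} ∉ K) → X.Nonempty → 2 ≤ (evd t X).card)) := by
  induction t with
  | leaf =>
    intro X K hD _ hKX
    have hE : X.Nonempty → (evd (DT.leaf : DT V) X).card = 0 := by
      intro hX
      rw [card_eq_zero, evd, filter_eq_empty_iff]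
      intro σ _ h
      simp only [run, List.length_nil] at h
      exact (card_pos.2 hX).ne h
    refine ⟨fun hX => by rw [hE hX]; exact Even.zero, fun hK => ?_⟩
    have hKe : K = X.powerset := by
      ext σ
      rw [mem_powerset]
      refine ⟨hKX σ, fun hσ => ?_⟩
      exact (hD.2 ∅ σ (by simp) hσ (by simp [run])).1 hK.1
    refine ⟨?_, ?_, ?_⟩
    · rw [hKe]; exact (dis_simplex X).mono (Nat.zero_le _)
    · rw [hKe]; exact (comp_simplex X).mono (by omega)
    · rintro h ⟨x, hx⟩
      exact absurd (by rw [hKe]; simpa using hx) (h x)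
  | node v no yes ihn ihy =>
    intro X K hD hKv hKX
    have hvX := dec_mem hD
    have hE := evd_node hD
    have hDn := dec_no hD
    -- parity
    have hone : X.erase v = ∅ → (evd no (X.erase v)).card = 1 := by
      intro h
      rw [h] at hDn ⊢
      exact evd_empty hDn
    rcases hKv with hK | hK
    swap
    · -- the void complex
      subst hK
      have hDy : DecOn yes (X.erase v) ∅ := by
        refine ⟨?_, by simp⟩
        intro σ hσ
        obtain ⟨h1, h2, h3, h4, h5⟩ := run_insert hD hσ
        exact ⟨h4, h5⟩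
      have hdel : del (∅ : Finset (Finset V)) v = ∅ := rfl
      rw [hdel] at hDn
      refine ⟨fun _ => ?_, fun hK => absurd hK.1 (by simp)⟩
      rw [hE]
      rcases (X.erase v).eq_empty_or_nonempty with h | h
      · rw [h] at hDy hDn ⊢
        rw [evd_empty hDn, evd_empty hDy]
        decide
      · exact ((ihn _ _ hDn (Or.inr rfl) (by simp)).1 h).add
          ((ihy _ _ hDy (Or.inr rfl) (by simp)).1 h)
    · have hDy := dec_yes hD hK
      have hln : IsCx (link K v) ∨ link K v = ∅ := by
        by_cases hv : {v} ∈ K
        · exact Or.inl (hK.link hv)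
        · right
          rw [Finset.eq_empty_iff_forall_notMem]
          intro σ hσ
          rw [mem_link hK] at hσ
          exact hv (hK.2 _ hσ.2 _ (by simp))
      have hn := ihn _ _ hDn (Or.inl (hK.del v)) (by
        intro s hs
        rw [mem_del] at hs
        exact subset_erase.2 ⟨hKX s hs.1, hs.2⟩)
      have hy := ihy _ _ hDy hln (by
        intro s hs
        rw [mem_link hK] at hs
        exact subset_erase.2 ⟨(subset_insert _ _).trans (hKX _ hs.2), hs.1⟩)
      have hev : Even ((evd no (X.erase v)).card + (evd yes (X.erase v)).card) := by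
        rcases (X.erase v).eq_empty_or_nonempty with h | h
        · rw [h] at hDy hDn ⊢
          rw [evd_empty hDn, evd_empty hDy]
          decide
        · exact (hn.1 h).add (hy.1 h)
      rw [hE]
      refine ⟨fun _ => hev, fun _ => ?_⟩
      obtain ⟨hn1, ⟨R, hRc, hR⟩, hn3⟩ := hn.2 (hK.del v)
      by_cases hv : {v} ∈ K
      · obtain ⟨hy1, hy2, hy3⟩ := hy.2 (hK.link hv)
        refine ⟨Dis.step K v _ _ _ (by omega) hv hn1 hy2, ?_, fun h => absurd hv (h v)⟩
        have key : ∀ P : V → Prop, (∀ x y, {x, y} ∈ K → P x → P y) →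
            (∀ r ∈ R, {r} ∈ K → P r) → ∀ y, {y} ∈ K → y ≠ v → P y := by
          intro P hP hPR y hy hyv
          refine hR P ?_ ?_ y (mem_del.2 ⟨hy, by simpa using hyv.symm⟩)
          · intro x z hxz
            exact hP x z (mem_del.1 hxz).1
          · intro r hr hrK
            exact hPR r hr (mem_del.1 hrK).1
        by_cases hlv : ∀ x, {x} ∉ link K v
        · rcases (X.erase v).eq_empty_or_nonempty with hX' | hX'
          · refine CompLE.mono (c := 1) ⟨{v}, by simp, ?_⟩ (by omega)
            intro P _ hP y hyK
            have hyX : y ∈ X := hKX _ hyK (by simp)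
            have : y = v := by
              by_contra hne
              have : y ∈ X.erase v := mem_erase.2 ⟨hne, hyX⟩
              rw [hX'] at this
              simp at this
            rw [this]
            exact hP v (by simp) hv
          · have hb := hy3 hlv hX'
            refine ⟨insert v R, (Finset.card_insert_le _ _).trans (by omega), ?_⟩
            intro P hP hPR y hy
            by_cases hyv : y = v
            · rw [hyv]
              exact hPR v (by simp) hv
            · exact key P hP (fun r hr => hPR r (Finset.mem_insert_of_mem hr)) y hy hyv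
        · push Not at hlv
          obtain ⟨x, hx⟩ := hlv
          rw [mem_link' hK] at hx
          refine ⟨R, by omega, ?_⟩
          intro P hP hPR y hy
          by_cases hyv : y = v
          · rw [hyv]
            have hxK : {x} ∈ K := hK.2 _ hx.2 _ (by simp)
            exact hP x v (by rw [Finset.pair_comm]; exact hx.2) (key P hP hPR x hxK hx.1.symm)
          · exact key P hP hPR y hy hyv
      · -- `v` is not a vertex of `K`
        have hdel : del K v = K := by
          ext σ
          rw [mem_del]
          refine ⟨fun h => h.1, fun h => ⟨h, fun h' => hv (hK.2 _ h _ (by simpa using h'))⟩⟩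
        rw [hdel] at hn1 hR hn3
        refine ⟨hn1.mono (by omega), CompLE.mono ⟨R, hRc, hR⟩ (by omega), fun h _ => ?_⟩
        rcases (X.erase v).eq_empty_or_nonempty with hX' | hX'
        · rw [hX'] at hDy hDn ⊢
          rw [evd_empty hDn, evd_empty hDy]
        · have := hn3 h hX'
          omega

end Pool.Agent.Y857.KE
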