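import Mathlib
import Pool.Agent.H933R3.KConn
import Pool.Agent.Y857.KE.Sec

/-!
# Generators of the fundamental group of the exterior of a spanning edge
-/

set_option autoImplicit false

namespace Pool.Agent.Y857.KE

open Set unitInterval Topology Pool.Agent.H933R3

variable {n : ℕ} {K : Finset (Finset (Fin n))} {u w : Fin n}

section quot
variable {Y : Type*} [TopologicalSpace Y]

theorem q_cancel {a b c : Y} (α : Path.Homotopic.Quotient a b) (β : Path.Homotopic.Quotient b c) :
    α.symm.trans (α.trans β) = β := by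
  rw [← Path.Homotopic.Quotient.trans_assoc, Path.Homotopic.Quotient.symm_trans,
    Path.Homotopic.Quotient.refl_trans]

theorem q_cancel' {a b c : Y} (α : Path.Homotopic.Quotient a b) (β : Path.Homotopic.Quotient a c) :
    α.trans (α.symm.trans β) = β := by
  rw [← Path.Homotopic.Quotient.trans_assoc, Path.Homotopic.Quotient.trans_symm,
    Path.Homotopic.Quotient.refl_trans]

/-- a class of loops as an element of the fundamental group -/
abbrev el {x0 : Y} (q : Path.Homotopic.Quotient x0 x0) : FundamentalGroup Y x0 :=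
  FundamentalGroup.fromPath q

/-- an element of the fundamental group as a class of loops -/
abbrev le {x0 : Y} (q : FundamentalGroup Y x0) : Path.Homotopic.Quotient x0 x0 :=
  FundamentalGroup.toPath q

theorem le_mul {x0 : Y} (a b : FundamentalGroup Y x0) : le (a * b) = (le b).trans (le a) := rfl

theorem el_mul {x0 : Y} (a b : Path.Homotopic.Quotient x0 x0) : el a * el b = el (b.trans a) := rfl

theorem mem_of_eq {Γ : Type*} [Group Γ] {H : Subgroup Γ} {a b h : Γ} (hh : h ∈ H)
    (e : b = a * h) : a⁻¹ * b ∈ H := by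
  rw [e, inv_mul_cancel_left]; exact hh

/-- the classes of the loops with values in a set -/
def loopsIn (C : Set Y) (x0 : Y) (hx0 : x0 ∈ C) : Subgroup (FundamentalGroup Y x0) where
  carrier := {q | ∃ p : Path x0 x0, (∀ t, p t ∈ C) ∧ el (Path.Homotopic.Quotient.mk p) = q}
  one_mem' := ⟨Path.refl x0, fun _ => hx0, rfl⟩
  mul_mem' := by
    rintro a b ⟨p, hp, rfl⟩ ⟨q, hq, rfl⟩
    refine ⟨q.trans p, ?_, rfl⟩
    intro t
    rw [Path.trans_apply]
    split_ifs
    · exact hq _
    · exact hp _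
  inv_mem' := by
    rintro a ⟨p, hp, rfl⟩
    exact ⟨p.symm, fun t => hp _, rfl⟩

theorem gen_loops {C : Type*} [TopologicalSpace C] (h : C ≃ₜ Circle) (ι : C(C, Y)) (c : C) :
    ∃ h0 : FundamentalGroup Y (ι c), ∀ γ : Path c c,
      el (Path.Homotopic.Quotient.mk (γ.map ι.continuous)) ∈ Subgroup.zpowers h0 := by
  have hcyc : IsCyclic (FundamentalGroup C ((ContinuousMap.id C) c)) := by
    refine isCyclic_of_circle h (ContinuousMap.id C) c ?_
    intro p
    exact ⟨p, Path.Homotopic.refl _⟩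
  obtain ⟨z, hz⟩ := hcyc.exists_generator
  refine ⟨FundamentalGroup.map ι c z, fun γ => ?_⟩
  obtain ⟨k, hk⟩ := Subgroup.mem_zpowers_iff.1 (hz (el (Path.Homotopic.Quotient.mk γ)))
  refine Subgroup.mem_zpowers_iff.2 ⟨k, ?_⟩
  rw [← map_zpow]
  exact congrArg (FundamentalGroup.map ι c) hk

end quot

theorem main_rank0 {c : ℕ} (hK : IsCx K) (hD : Dis c K) (hs : IsSpanningEdge K u w) {c0 : Fin n}
    (hc0 : {c0} ∈ link (link K u) w) (x0 : edgeExterior K u w) (hx0 : x0.1 = Pi.single c0 1)
    (hpc : ∀ y : edgeExterior K u w, Joined x0 y) :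
    ∃ S : Finset (FundamentalGroup (edgeExterior K u w) x0), S.card ≤ c + 1 ∧
      Subgroup.closure (S : Set (FundamentalGroup (edgeExterior K u w) x0)) = ⊤ := by
  classical
  obtain ⟨huw, huwK, hBu, hBw, ⟨hC⟩⟩ := hs
  have huK : {u} ∈ K := hK.2 _ huwK _ (by simp)
  have hwK : {w} ∈ K := hK.2 _ huwK _ (by simp)
  have hwuK : {w, u} ∈ K := by rwa [Finset.pair_comm]
  have hLu := hK.link huK
  have hLw := hK.link hwK
  have hcomm := link_link_comm hK huK hwK
  have hwl : {w} ∈ link K u := (mem_link' hK).2 ⟨huw, huwK⟩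
  have hul : {u} ∈ link K w := (mem_link' hK).2 ⟨huw.symm, hwuK⟩
  have hc0' : c0 ≠ u ∧ c0 ≠ w ∧ {u, w, c0} ∈ K := by
    have h1 := (mem_link hLu).1 hc0
    have h2 := (mem_link hK).1 h1.2
    refine ⟨fun h => h2.1 (by simp [h]), fun h => h1.1 (by simp [h]), h2.2⟩
  obtain ⟨hc0u, hc0w, hc0K⟩ := hc0'
  have hptx : ∀ v : Fin n, ∃ y : edgeExterior K u w, v ≠ u → v ≠ w → {v} ∈ K →
      y.1 = Pi.single v 1 := by
    intro v
    by_cases h : v ≠ u ∧ v ≠ w ∧ {v} ∈ K
    · exact ⟨⟨_, Sx_sub huw h.2.2 (single_mem_Sx (Finset.mem_singleton_self v) h.1 h.2.1)⟩,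
        fun _ _ _ => rfl⟩
    · exact ⟨x0, fun h1 h2 h3 => absurd ⟨h1, h2, h3⟩ h⟩
  choose pt hpt using hptx
  let fr : Fin n → Set (Fin n → ℝ) := fun t =>
    if t = u then realization (del (link K u) w) else realization (del (link K w) u)
  have hfru : fr u = realization (del (link K u) w) := if_pos rfl
  have hfrw : fr w = realization (del (link K w) u) := if_neg huw.symm
  let T : Finset (Fin n) := {u, w}
  have hT : ∀ v, v ∉ T ↔ v ≠ u ∧ v ≠ w := by
    intro v
    simp [T]
  have hT' : ∀ v, v ∈ T → v = u ∨ v = w := by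
    intro v
    simp [T]
  -- vertices in `Sx`
  have hptS : ∀ v, v ∉ T → ∀ G : Finset (Fin n), G ∈ K → v ∈ G → (pt v).1 ∈ Sx u w G := by
    intro v hv G hG hvG
    rw [hT] at hv
    rw [hpt v hv.1 hv.2 (hK.2 _ hG _ (Finset.singleton_subset_iff.2 hvG))]
    exact single_mem_Sx hvG hv.1 hv.2
  -- simplices of the frame
  have hfrS : ∀ t ∈ T, ∀ G : Finset (Fin n), (∀ v ∈ G, v ∉ T) → insert t G ∈ K →
      Sx u w G ⊆ fr t := by
    intro t ht G hG hGK x hx
    rcases hT' t ht with h | h
    · rw [h, hfru]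
      rw [h] at hGK
      refine ⟨hx.1, hx.2.1, G, ?_, hx.2.2.1⟩
      rw [mem_del, mem_link hK]
      exact ⟨⟨fun h' => ((hT _).1 (hG _ h')).1 rfl, hGK⟩, fun h' => ((hT _).1 (hG _ h')).2 rfl⟩
    · rw [h, hfrw]
      rw [h] at hGK
      refine ⟨hx.1, hx.2.1, G, ?_, hx.2.2.1⟩
      rw [mem_del, mem_link hK]
      exact ⟨⟨fun h' => ((hT _).1 (hG _ h')).2 rfl, hGK⟩, fun h' => ((hT _).1 (hG _ h')).1 rfl⟩
  -- points in the link of the edge
  have hlkS : ∀ v, v ∉ T → {u, w, v} ∈ K → (pt v).1 ∈ realization (link (link K u) w) := by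
    intro v hv hvK
    have hv' := (hT v).1 hv
    rw [hpt v hv'.1 hv'.2 (hK.2 _ hvK _ (by simp))]
    refine single_mem ?_
    rw [mem_link hLu, mem_link hK]
    refine ⟨by simpa using hv'.2.symm, ?_, hvK⟩
    simp only [Finset.mem_insert, Finset.mem_singleton, not_or]
    exact ⟨huw, hv'.1.symm⟩
  have hx0l : x0.1 ∈ realization (link (link K u) w) := by
    rw [hx0]
    exact single_mem hc0
  have hlu : realization (link (link K u) w) ⊆ fr u := by
    rw [hfru]
    exact link_link_sub_del hK huK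
  have hlw : realization (link (link K u) w) ⊆ fr w := by
    rw [hfrw, hcomm]
    exact link_link_sub_del hK hwK
  -- pushing paths of the frames into the circle
  have hpush : ∀ t ∈ T, ∀ y : edgeExterior K u w, y.1 ∈ realization (link (link K u) w) →
      ∀ p : Path x0 y, (∀ s, (p s).1 ∈ fr t) →
      ∃ q : Path x0 y, (∀ t, (q t).1 ∈ realization (link (link K u) w)) ∧
        p.Homotopic q := by
    intro t ht y hy p hp
    rcases hT' t ht with h | h
    · rw [h, hfru] at hp
      exact push_in hK huK huw huwK hBu (frame_sub huw) hx0l hy p hp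
    · rw [h, hfrw] at hp
      rw [hcomm]
      exact push_in hK hwK huw.symm hwuK hBw (frame_sub' huw) (hcomm ▸ hx0l)
        (hcomm ▸ hy) p hp
  -- the circle
  let Cs : Set (edgeExterior K u w) := {y | y.1 ∈ realization (link (link K u) w)}
  let H : Subgroup (FundamentalGroup (edgeExterior K u w) x0) := loopsIn Cs x0 hx0l
  have hsubC : realization (link (link K u) w) ⊆ edgeExterior K u w :=
    (link_link_sub_del hK huK).trans (frame_sub huw)
  let ι : C(realization (link (link K u) w), edgeExterior K u w) :=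
    ⟨fun x => ⟨x.1, hsubC x.2⟩, by fun_prop⟩
  have hpcC := circle_pathConnected hC
  have hCj : ∀ b : edgeExterior K u w, b.1 ∈ realization (link (link K u) w) →
      ∃ q : Path x0 b, ∀ t, (q t).1 ∈ realization (link (link K u) w) := by
    intro b hb
    obtain ⟨p⟩ := hpcC.joined ⟨x0.1, hx0l⟩ ⟨b.1, hb⟩
    exact ⟨p.map ι.continuous, fun t => (p t).2⟩
  -- `H` is generated by one element
  obtain ⟨h0, hh0⟩ : ∃ h0 : FundamentalGroup (edgeExterior K u w) x0,
      H ≤ Subgroup.zpowers h0 := by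
    obtain ⟨h0, hh0⟩ := gen_loops hC ι ⟨x0.1, hx0l⟩
    refine ⟨h0, ?_⟩
    rintro q ⟨p, hp, rfl⟩
    let p' : Path (⟨x0.1, hx0l⟩ : realization (link (link K u) w)) ⟨x0.1, hx0l⟩ :=
      ⟨⟨fun t => ⟨(p t).1, hp t⟩, by fun_prop⟩, by
        apply Subtype.ext
        show (p 0).1 = x0.1
        rw [p.source], by
        apply Subtype.ext
        show (p 1).1 = x0.1
        rw [p.target]⟩
    have h1 := hh0 p'
    have h2 : p'.map ι.continuous = p := by
      ext t
      rfl
    rw [h2] at h1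
    exact h1
  -- paths from the base point
  choose γ _ using fun v => (⟨(hpc (pt v)).somePath, trivial⟩ : ∃ _ : Path x0 (pt v), True)
  let gm : ∀ v, Path.Homotopic.Quotient x0 (pt v) := fun v => Path.Homotopic.Quotient.mk (γ v)
  -- paths in the frames
  have hfp : ∀ t v, ∃ p : Path x0 (pt v), t ∈ T → v ∉ T → {t, v} ∈ K → ∀ s, (p s).1 ∈ fr t := by
    intro t v
    by_cases h : t ∈ T ∧ v ∉ T ∧ {t, v} ∈ K
    · obtain ⟨ht, hv, htv⟩ := h
      have hvt : v ≠ t := by
        rintro rfl
        exact hv ht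
      have hmem : (pt v).1 ∈ fr t := by
        refine hfrS t ht {v} (by simpa using hv) htv ?_
        exact hptS v hv _ (hK.2 _ htv _ (by simp)) (by simp)
      rcases hT' t ht with h | h
      · subst h
        rw [hfru] at hmem
        obtain ⟨b, hb, ⟨p⟩⟩ := join_link hLu hwl hBu ⟨(pt v).1, hmem⟩
        let j : C(realization (del (link K t) w), edgeExterior K t w) :=
          ⟨fun x => ⟨x.1, frame_sub huw x.2⟩, by fun_prop⟩
        obtain ⟨q, hq⟩ := hCj (j b) hb
        refine ⟨q.trans (p.map j.continuous).symm, fun _ _ _ s => ?_⟩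
        refine trans_mem (S := fr t) (fun s => hlu (hq s)) (fun s => ?_) s
        rw [hfru]
        exact (p _).2
      · subst h
        rw [hfrw] at hmem
        obtain ⟨b, hb, ⟨p⟩⟩ := join_link hLw hul hBw ⟨(pt v).1, hmem⟩
        let j : C(realization (del (link K t) u), edgeExterior K u t) :=
          ⟨fun x => ⟨x.1, frame_sub' huw x.2⟩, by fun_prop⟩
        obtain ⟨q, hq⟩ := hCj (j b) (by rw [hcomm]; exact hb)
        refine ⟨q.trans (p.map j.continuous).symm, fun _ _ _ s => ?_⟩
        refine trans_mem (S := fr t) (fun s => hlw (hq s)) (fun s => ?_) s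
        rw [hfrw]
        exact (p _).2
    · exact ⟨γ v, fun h1 h2 h3 => absurd ⟨h1, h2, h3⟩ h⟩
  choose cp hcp using hfp
  let ψ : Fin n → Fin n → FundamentalGroup (edgeExterior K u w) x0 := fun a b =>
    if h : segment ℝ (pt a).1 (pt b).1 ⊆ edgeExterior K u w then
      el (((gm a).trans (Path.Homotopic.Quotient.mk (lin (pt a) (pt b) h))).trans (gm b).symm)
    else 1
  have hψ : ∀ a b (h : segment ℝ (pt a).1 (pt b).1 ⊆ edgeExterior K u w), ψ a b =
      el (((gm a).trans (Path.Homotopic.Quotient.mk (lin (pt a) (pt b) h))).trans (gm b).symm) :=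
    fun a b h => dif_pos h
  let col : Fin n → Fin n → FundamentalGroup (edgeExterior K u w) x0 := fun t v =>
    el ((Path.Homotopic.Quotient.mk (cp t v)).trans (gm v).symm)
  have hLS : LSG K T H ψ col := by
    refine ⟨?_, ?_, ?_, ?_⟩
    · intro a ha haK
      have hS := hptS a ha {a} haK (Finset.mem_singleton_self a)
      have h := seg_sub huw haK hS hS
      rw [hψ a a h, lin_self, Path.Homotopic.Quotient.mk_refl, Path.Homotopic.Quotient.trans_refl,
        Path.Homotopic.Quotient.trans_symm]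
      rfl
    · intro a b c ha hb hc habc
      have hSa := hptS a ha _ habc (by simp)
      have hSb := hptS b hb _ habc (by simp)
      have hSc := hptS c hc _ habc (by simp)
      have h1 := seg_sub huw habc hSa hSb
      have h2 := seg_sub huw habc hSb hSc
      have h3 := seg_sub huw habc hSa hSc
      rw [hψ b c h2, hψ a b h1, hψ a c h3, el_mul, ← tri huw habc hSa hSb hSc h1 h2 h3]
      simp only [Path.Homotopic.Quotient.trans_assoc, q_cancel]
    · intro t ht a b ha hb htab
      have habK : {a, b} ∈ K := hK.2 _ htab _ (by intro z; simp; tauto)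
      have haK' : {t, a} ∈ K := hK.2 _ htab _ (by intro z; simp; tauto)
      have hbK' : {t, b} ∈ K := hK.2 _ htab _ (by intro z; simp; tauto)
      have hSa := hptS a ha _ habK (by simp)
      have hSb := hptS b hb _ habK (by simp)
      have h1 := seg_sub huw habK hSa hSb
      have hfr := hfrS t ht {a, b} (by
        intro v hv
        simp only [Finset.mem_insert, Finset.mem_singleton] at hv
        rcases hv with rfl | rfl
        · exact ha
        · exact hb) htab
      obtain ⟨q, hq1, hq2⟩ := hpush t ht x0 hx0l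
        (((cp t a).trans (lin (pt a) (pt b) h1)).trans (cp t b).symm)
        (trans_mem (trans_mem (hcp t a ht ha haK') (fun t => hfr (lin_Sx hSa hSb h1 t)))
          (fun s => hcp t b ht hb hbK' _))
      refine mem_of_eq (h := el (Path.Homotopic.Quotient.mk q)) ⟨q, hq1, rfl⟩ ?_
      rw [← Path.Homotopic.Quotient.eq.2 hq2, hψ a b h1, el_mul, el_mul,
        Path.Homotopic.Quotient.mk_trans, Path.Homotopic.Quotient.mk_trans,
        Path.Homotopic.Quotient.mk_symm]
      simp only [Path.Homotopic.Quotient.trans_assoc, q_cancel]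
    · intro t ht t' ht' a ha hK'
      have hcase : ∀ t1 ∈ T, ∀ t2 ∈ T, {u, w, a} ∈ K → {t1, a} ∈ K → {t2, a} ∈ K →
          (col t1 a)⁻¹ * col t2 a ∈ H := by
        intro t1 ht1 t2 ht2 haK h1 h2
        obtain ⟨q1, hq1, hq1'⟩ := hpush t1 ht1 (pt a) (hlkS a ha haK) (cp t1 a)
          (hcp t1 a ht1 ha h1)
        obtain ⟨q2, hq2, hq2'⟩ := hpush t2 ht2 (pt a) (hlkS a ha haK) (cp t2 a)
          (hcp t2 a ht2 ha h2)
        refine mem_of_eq (h := el (Path.Homotopic.Quotient.mk (q2.trans q1.symm)))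
          ⟨q2.trans q1.symm, trans_mem hq2 (fun s => hq1 _), rfl⟩ ?_
        show el _ = el _ * el _
        rw [el_mul, Path.Homotopic.Quotient.mk_trans, Path.Homotopic.Quotient.mk_symm,
          ← Path.Homotopic.Quotient.eq.2 hq1', ← Path.Homotopic.Quotient.eq.2 hq2']
        simp only [Path.Homotopic.Quotient.trans_assoc, q_cancel]
      have hta : {t, a} ∈ K := hK.2 _ hK' _ (by intro z; simp; tauto)
      have hta' : {t', a} ∈ K := hK.2 _ hK' _ (by intro z; simp; tauto)
      rcases hT' t ht with h | h <;> rcases hT' t' ht' with h' | h'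
      · rw [h, h']; exact e_refl _
      · refine hcase t ht t' ht' ?_ hta hta'
        rw [h, h'] at hK'
        exact hK'
      · refine hcase t ht t' ht' ?_ hta hta'
        rw [h, h'] at hK'
        rwa [Finset.insert_comm] at hK'
      · rw [h, h']; exact e_refl _
  have hcl : ∀ t ∈ T, ∀ t' ∈ T, {t, t'} ∈ K := by
    intro t ht t' ht'
    rcases hT' t ht with h | h <;> rcases hT' t' ht' with h' | h' <;> rw [h, h']
    · simpa using huK
    · exact huwK
    · exact hwuK
    · simpa using hwK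
  obtain ⟨S, g, hSc, hg1, -⟩ := (sectG hD hK T H ψ col hLS hcl).2 ⟨u, by simp [T]⟩
  let H' : Subgroup (FundamentalGroup (edgeExterior K u w) x0) :=
    H ⊔ Subgroup.closure (S : Set (FundamentalGroup (edgeExterior K u w) x0))
  have hec : pt c0 = x0 := by
    apply Subtype.ext
    rw [hx0, hpt c0 hc0u hc0w (hK.2 _ hc0K _ (by simp))]
  -- the coset over a vertex
  let A : ∀ v, Set (Path.Homotopic.Quotient x0 (pt v)) := fun v =>
    {q | ∃ h ∈ H', q = (le (g v * h)).trans (gm v)}
  have hA : ∀ v1 v, v1 ∉ T → v ∉ T → {v1, v} ∈ K →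
      ∀ (h12 : segment ℝ (pt v1).1 (pt v).1 ⊆ edgeExterior K u w), ∀ q1 ∈ A v1,
      q1.trans (Path.Homotopic.Quotient.mk (lin (pt v1) (pt v) h12)) ∈ A v := by
    rintro v1 v hv1 hv hvv h12 q1 ⟨h, hh, rfl⟩
    have hk := hg1 v1 v hv1 hv hvv
    refine ⟨(g v)⁻¹ * (ψ v1 v * g v1) * h, H'.mul_mem hk hh, ?_⟩
    have e1 : g v * ((g v)⁻¹ * (ψ v1 v * g v1) * h) = ψ v1 v * (g v1 * h) := by group
    rw [e1]
    show ((le (g v1 * h)).trans (gm v1)).trans
        (Path.Homotopic.Quotient.mk (lin (pt v1) (pt v) h12)) =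
      ((le (g v1 * h)).trans (le (ψ v1 v))).trans (gm v)
    rw [hψ v1 v h12]
    show ((le (g v1 * h)).trans (gm v1)).trans
        (Path.Homotopic.Quotient.mk (lin (pt v1) (pt v) h12)) =
      ((le (g v1 * h)).trans (((gm v1).trans
        (Path.Homotopic.Quotient.mk (lin (pt v1) (pt v) h12))).trans (gm v).symm)).trans (gm v)
    generalize le (g v1 * h) = z
    simp only [Path.Homotopic.Quotient.trans_assoc, Path.Homotopic.Quotient.symm_trans,
      Path.Homotopic.Quotient.trans_refl]
  -- the section over the exterior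
  let G : ∀ y : edgeExterior K u w, Set (Path.Homotopic.Quotient x0 y) := fun y =>
    {q | ∃ v, v ≠ u ∧ v ≠ w ∧ 0 < y.1 v ∧ ∃ q1 ∈ A v, ∃ p : Path (pt v) y,
      (∀ t, 0 < (p t).1 v) ∧ q = q1.trans (Path.Homotopic.Quotient.mk p)}
  have hG : ∀ (i : {v : Fin n // v ≠ u ∧ v ≠ w}) (y y' : edgeExterior K u w) (p : Path y y'),
      (∀ t, p t ∈ {y : edgeExterior K u w | 0 < y.1 i.1}) → ∀ q ∈ G y,
      q.trans (Path.Homotopic.Quotient.mk p) ∈ G y' := by
    rintro ⟨v, hvu, hvw⟩ y y' p hp q ⟨v1, hv1u, hv1w, hy1, q1, hq1, p1, hp1, rfl⟩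
    have hyv : 0 < y.1 v := by simpa using hp 0
    have hyv' : 0 < y'.1 v := by simpa using hp 1
    obtain ⟨F, hF, hyF⟩ := exists_Sx huw y.2
    have hvF := mem_of_pos hyF hyv
    have hv1F := mem_of_pos hyF hy1
    have hSv := hptS v ((hT _).2 ⟨hvu, hvw⟩) F hF hvF
    have hSv1 := hptS v1 ((hT _).2 ⟨hv1u, hv1w⟩) F hF hv1F
    have h12 := seg_sub huw hF hSv1 hSv
    have h2y := seg_sub huw hF hSv hyF
    have h1y := seg_sub huw hF hSv1 hyF
    have hvK : {v} ∈ K := hK.2 _ hF _ (Finset.singleton_subset_iff.2 hvF)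
    have hv1K : {v1} ∈ K := hK.2 _ hF _ (Finset.singleton_subset_iff.2 hv1F)
    have hv12 : {v1, v} ∈ K := hK.2 _ hF _ (by
      intro z hz
      simp only [Finset.mem_insert, Finset.mem_singleton] at hz
      rcases hz with rfl | rfl
      · exact hv1F
      · exact hvF)
    have hgv := hA v1 v ((hT _).2 ⟨hv1u, hv1w⟩) ((hT _).2 ⟨hvu, hvw⟩) hv12 h12 q1 hq1
    have hseg : segment ℝ (pt v).1 y.1 ⊆ ostar K v := by
      rw [hpt v hvu hvw hvK]
      exact (ostar_star v).segment_subset ⟨y.2.1, hyv⟩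
    have hseg1 : segment ℝ (pt v1).1 y.1 ⊆ ostar K v1 := by
      rw [hpt v1 hv1u hv1w hv1K]
      exact (ostar_star v1).segment_subset ⟨y.2.1, hy1⟩
    refine ⟨v, hvu, hvw, hyv', _, hgv, (lin (pt v) y h2y).trans p, ?_, ?_⟩
    · intro t
      exact trans_mem (S := {x | 0 < x v}) (fun t => (hseg (lin_mem _ _ h2y t)).2) hp t
    · have e1 : Path.Homotopic.Quotient.mk p1 = Path.Homotopic.Quotient.mk (lin (pt v1) y h1y) :=
        Path.Homotopic.Quotient.eq.2 (star_homotopic (ostar_sub huw hv1u hv1w) (ostar_star v1)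
          _ _ (fun t => ⟨(p1 t).2.1, hp1 t⟩) (fun t => hseg1 (lin_mem _ _ h1y t)))
      rw [e1, Path.Homotopic.Quotient.mk_trans, ← tri huw hF hSv1 hSv hyF h12 h2y h1y]
      simp only [Path.Homotopic.Quotient.trans_assoc]
  have hcov : ∀ y : edgeExterior K u w, ∃ i : {v : Fin n // v ≠ u ∧ v ≠ w},
      y ∈ {y : edgeExterior K u w | 0 < y.1 i.1} := by
    intro y
    obtain ⟨v, h1, h2, h3⟩ := exists_pos huw y.2
    exact ⟨⟨v, h1, h2⟩, h3⟩
  have hopen : ∀ i : {v : Fin n // v ≠ u ∧ v ≠ w},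
      IsOpen {y : edgeExterior K u w | 0 < y.1 i.1} := by
    intro i
    exact isOpen_lt continuous_const ((continuous_apply i.1).comp continuous_subtype_val)
  have hpos0 : 0 < x0.1 c0 := by
    rw [hx0]
    simp
  let ec : Path.Homotopic.Quotient (pt c0) x0 :=
    Path.Homotopic.Quotient.mk ((Path.refl x0).cast hec rfl)
  let κ : FundamentalGroup (edgeExterior K u w) x0 := el ((gm c0).trans ec)
  have hGx : ∀ q : Path.Homotopic.Quotient x0 x0, q ∈ G x0 → ∃ h ∈ H', el q = κ * (g c0 * h) := by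
    rintro q ⟨v, hvu, hvw, hv0, q1, ⟨h, hh, rfl⟩, p1, hp1, rfl⟩
    have hvc : v = c0 := by
      by_contra h
      rw [hx0, Pi.single_eq_of_ne h] at hv0
      exact lt_irrefl _ hv0
    subst hvc
    have e1 : Path.Homotopic.Quotient.mk p1 = ec :=
      Path.Homotopic.Quotient.eq.2 (star_homotopic (ostar_sub huw hvu hvw) (ostar_star v)
        _ _ (fun t => ⟨(p1 t).2.1, hp1 t⟩) (fun t => ⟨x0.2.1, hpos0⟩))
    refine ⟨h, hh, ?_⟩
    rw [e1, Path.Homotopic.Quotient.trans_assoc]
    rfl
  have hG0 : le (κ * (g c0 * 1)) ∈ G x0 := by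
    refine ⟨c0, hc0u, hc0w, hpos0, (le (g c0 * 1)).trans (gm c0), ⟨1, H'.one_mem, rfl⟩,
      (Path.refl x0).cast hec rfl, fun t => hpos0, ?_⟩
    rw [le_mul]
    show (le (g c0 * 1)).trans ((gm c0).trans ec) = _
    rw [Path.Homotopic.Quotient.trans_assoc]
  have hall : ∀ x : FundamentalGroup (edgeExterior K u w) x0, x ∈ H' := by
    intro x
    let y : FundamentalGroup (edgeExterior K u w) x0 := (κ * g c0) * x * (κ * g c0)⁻¹
    obtain ⟨p, hp⟩ := Path.Homotopic.Quotient.mk_surjective (le y)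
    have hfin := transport_of_cover _ hopen hcov x0 G hG x0 x0 p _ hG0
    obtain ⟨h, hh, he⟩ := hGx _ hfin
    have e1 : el ((le (κ * (g c0 * 1))).trans (Path.Homotopic.Quotient.mk p)) =
        y * (κ * (g c0 * 1)) := by
      rw [hp]
      rfl
    rw [e1] at he
    have e2 : x = h := by
      have e3 : y * (κ * (g c0 * 1)) = κ * (g c0 * x) := by
        show (κ * g c0) * x * (κ * g c0)⁻¹ * (κ * (g c0 * 1)) = κ * (g c0 * x)
        group
      rw [e3] at he
      exact mul_left_cancel (mul_left_cancel he)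
    rw [e2]
    exact hh
  refine ⟨insert h0 S, (Finset.card_insert_le _ _).trans (by omega), ?_⟩
  rw [eq_top_iff]
  intro x _
  have hle : H' ≤ Subgroup.closure
      ((insert h0 S : Finset (FundamentalGroup (edgeExterior K u w) x0)) : Set _) := by
    refine sup_le (hh0.trans ?_) (Subgroup.closure_mono (by simp))
    rw [Subgroup.zpowers_le]
    exact Subgroup.subset_closure (by simp)
  exact hle (hall x)

end Pool.Agent.Y857.KE
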