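import Mathlib
import Pool.Agent.Y857.KE.Geo

/-!
# The number of generators of the knot group of a spanning edge and vertex deletions
-/

set_option autoImplicit false

namespace Pool.Agent.Y857.KE

open Set unitInterval Topology Pool.Agent.H933R3

section ball
variable {n : ℕ} {K : Finset (Finset (Fin n))} {u w : Fin n}

/-- the 1-skeleton of a triangulated ball is connected -/
theorem conn_of_ball {d : ℕ} (hK : IsCx K) (hB : IsBall d K) : Conn K := by
  obtain ⟨e⟩ := hB
  have hpre : PreconnectedSpace (Metric.closedBall (0 : EuclideanSpace ℝ (Fin d)) 1) :=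
    Subtype.preconnectedSpace (convex_closedBall _ _).isPreconnected
  have hX : PreconnectedSpace (realization K) :=
    e.symm.surjective.denseRange.preconnectedSpace e.symm.continuous
  refine ⟨?_, ?_⟩
  · obtain ⟨x⟩ : Nonempty (realization K) := ⟨e.symm ⟨0, by simp⟩⟩
    obtain ⟨h0, h1, F, hF, hsF⟩ := x.2
    have hFne : F.Nonempty := by
      rw [Finset.nonempty_iff_ne_empty]
      rintro rfl
      have : ∑ i, x.1 i = 0 := Finset.sum_eq_zero fun i _ => hsF i (by simp)
      rw [this] at h1
      exact zero_ne_one h1
    obtain ⟨c0, hc0⟩ := hFne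
    exact ⟨c0, hK.2 _ hF _ (Finset.singleton_subset_iff.2 hc0)⟩
  · intro P hP x y hx hy hPx
    by_contra hPy
    let A : Set (realization K) := {z | ∀ i, ¬ P i → z.1 i = 0}
    let B : Set (realization K) := {z | ∀ i, P i → z.1 i = 0}
    have hA : IsClosed A := by
      have : A = ⋂ i, {z : realization K | ¬ P i → z.1 i = 0} := by
        ext z; simp [A]
      rw [this]
      refine isClosed_iInter fun i => ?_
      by_cases hi : P i
      · simp [hi]
      · simp only [hi, not_false_eq_true, forall_const]
        exact isClosed_eq ((continuous_apply i).comp continuous_subtype_val) continuous_const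
    have hB : IsClosed B := by
      have : B = ⋂ i, {z : realization K | P i → z.1 i = 0} := by
        ext z; simp [B]
      rw [this]
      refine isClosed_iInter fun i => ?_
      by_cases hi : P i
      · simp only [hi, forall_const]
        exact isClosed_eq ((continuous_apply i).comp continuous_subtype_val) continuous_const
      · simp [hi]
    have hAB : Aᶜ = B := by
      ext z
      obtain ⟨h0, h1, F, hF, hsF⟩ := z.2
      constructor
      · intro hz
        simp only [A, mem_compl_iff, Set.mem_ofPred_eq, not_forall] at hz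
        obtain ⟨i, hi, hzi⟩ := hz
        intro j hj
        by_contra hzj
        have hiF : i ∈ F := by
          by_contra h; exact hzi (hsF i h)
        have hjF : j ∈ F := by
          by_contra h; exact hzj (hsF j h)
        refine hi (hP j i (hK.2 _ hF _ ?_) hj)
        intro a ha
        simp only [Finset.mem_insert, Finset.mem_singleton] at ha
        rcases ha with rfl | rfl
        · exact hjF
        · exact hiF
      · intro hz hzA
        have : ∑ i, z.1 i = 0 := Finset.sum_eq_zero fun i _ => by
          by_cases hi : P i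
          · exact hz i hi
          · exact hzA i hi
        rw [this] at h1
        exact zero_ne_one h1
    have hclopen : IsClopen A := ⟨hA, by rw [← isClosed_compl_iff, hAB]; exact hB⟩
    rcases isClopen_iff.1 hclopen with h | h
    · have hxA : (⟨Pi.single x 1, single_mem hx⟩ : realization K) ∈ A := by
        intro i hi
        have : i ≠ x := by
          rintro rfl
          exact hi hPx
        show (Pi.single x (1 : ℝ) : Fin n → ℝ) i = 0
        rw [Pi.single_eq_of_ne this]
      rw [h] at hxA
      exact hxA
    · have hyA : (⟨Pi.single y 1, single_mem hy⟩ : realization K) ∈ A := by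
        rw [h]; trivial
      have := hyA y hPy
      simp at this

theorem joined_all' (hK : IsCx K) (hcn : Conn K) (hs : IsSpanningEdge K u w)
    (x0 : edgeExterior K u w) (hx0 : x0.1 ∈ realization (link (link K u) w))
    (y : edgeExterior K u w) : Joined x0 y := by
  obtain ⟨huw, huwK, hBu, hBw, ⟨hC⟩⟩ := hs
  have huK : {u} ∈ K := hK.2 _ huwK _ (by simp)
  have hwK : {w} ∈ K := hK.2 _ huwK _ (by simp)
  have hwuK : {w, u} ∈ K := by rwa [Finset.pair_comm]
  have hcomm := link_link_comm hK huK hwK
  have hpc := circle_pathConnected hC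
  have hsubC : realization (link (link K u) w) ⊆ edgeExterior K u w :=
    (link_link_sub_del hK huK).trans (frame_sub huw)
  let ι : C(realization (link (link K u) w), edgeExterior K u w) :=
    ⟨fun x => ⟨x.1, hsubC x.2⟩, by fun_prop⟩
  have hCj : ∀ b : edgeExterior K u w, b.1 ∈ realization (link (link K u) w) →
      Joined x0 b := by
    intro b hb
    obtain ⟨p⟩ := hpc.joined ⟨x0.1, hx0⟩ ⟨b.1, hb⟩
    exact ⟨p.map ι.continuous⟩
  -- vertices
  have hconn := hcn.2
    (fun v => v = u ∨ v = w ∨ ∀ y : edgeExterior K u w, y.1 = Pi.single v 1 → Joined x0 y)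
    (by
      intro a b hab hPa
      by_cases hbu : b = u
      · exact Or.inl hbu
      by_cases hbw : b = w
      · exact Or.inr (Or.inl hbw)
      refine Or.inr (Or.inr fun y hy => ?_)
      have hbK : {b} ∈ K := hK.2 _ hab _ (by simp)
      by_cases hau : a = u
      · subst hau
        have h1 : y.1 ∈ realization (del (link K a) w) := by
          rw [hy]
          refine single_mem ?_
          rw [mem_del, mem_link' hK]
          exact ⟨⟨fun h => hbu h.symm, hab⟩, by simpa using fun h => hbw h.symm⟩
        obtain ⟨b', hb', hj⟩ := joined_link hK huK huw huwK hBu (frame_sub huw) y h1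
        exact (hCj b' hb').trans hj.symm
      by_cases haw : a = w
      · subst haw
        have h1 : y.1 ∈ realization (del (link K a) u) := by
          rw [hy]
          refine single_mem ?_
          rw [mem_del, mem_link' hK]
          exact ⟨⟨fun h => hbw h.symm, hab⟩, by simpa using fun h => hbu h.symm⟩
        obtain ⟨b', hb', hj⟩ := joined_link hK hwK huw.symm hwuK hBw (frame_sub' huw) y h1
        exact (hCj b' (hcomm ▸ hb')).trans hj.symm
      have hSa : (Pi.single a 1 : Fin n → ℝ) ∈ Sx u w {a, b} :=
        single_mem_Sx (by simp) hau haw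
      have hSb : (Pi.single b 1 : Fin n → ℝ) ∈ Sx u w {a, b} :=
        single_mem_Sx (by simp) hbu hbw
      rcases hPa with h | h | h
      · exact absurd h hau
      · exact absurd h haw
      · have hj := h ⟨_, Sx_sub huw hab hSa⟩ rfl
        refine hj.trans ⟨lin _ y ?_⟩
        rw [hy]
        exact seg_sub huw hab hSa hSb)
  obtain ⟨v, hvu, hvw, hv⟩ := exists_pos huw y.2
  obtain ⟨F, hF, hyF⟩ := exists_Sx huw y.2
  have hvF := mem_of_pos hyF hv
  have hvK : {v} ∈ K := hK.2 _ hF _ (Finset.singleton_subset_iff.2 hvF)
  have hSv : (Pi.single v 1 : Fin n → ℝ) ∈ Sx u w F := single_mem_Sx hvF hvu hvw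
  rcases hconn u v huK hvK (Or.inl rfl) with h | h | h
  · exact absurd h hvu
  · exact absurd h hvw
  · have hj := h ⟨_, Sx_sub huw hF hSv⟩ rfl
    exact hj.trans ⟨lin _ y (seg_sub huw hF hSv hyF)⟩

/-- the group is generated by `m` elements -/
def GenBy (m : ℕ) (Γ : Type) [Group Γ] : Prop :=
  ∃ S : Finset Γ, S.card ≤ m ∧ Subgroup.closure (S : Set Γ) = ⊤

theorem main_rank {c : ℕ} (hK : IsCx K) (hcn : Conn K) (hD : Dis c K) (hs : IsSpanningEdge K u w)
    (y : edgeExterior K u w) : GenBy (c + 1) (FundamentalGroup (edgeExterior K u w) y) := by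
  classical
  have hs' := hs
  obtain ⟨huw, huwK, hBu, hBw, ⟨hC⟩⟩ := hs
  have huK : {u} ∈ K := hK.2 _ huwK _ (by simp)
  have hsubC : realization (link (link K u) w) ⊆ edgeExterior K u w :=
    (link_link_sub_del hK huK).trans (frame_sub huw)
  -- a vertex of the circle
  obtain ⟨c0, hc0⟩ : ∃ c0, {c0} ∈ link (link K u) w := by
    obtain ⟨h0, h1, F, hF, hsF⟩ := (hC.symm 1).2
    have hFne : F.Nonempty := by
      rw [Finset.nonempty_iff_ne_empty]
      rintro rfl
      have : ∑ i, (hC.symm 1).1 i = 0 := Finset.sum_eq_zero fun i _ => hsF i (by simp)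
      rw [this] at h1
      exact zero_ne_one h1
    obtain ⟨c0, hc0⟩ := hFne
    exact ⟨c0, ((hK.link huK).link ((mem_link' hK).2 ⟨huw, huwK⟩)).2 _ hF _
      (Finset.singleton_subset_iff.2 hc0)⟩
  let x0 : edgeExterior K u w := ⟨Pi.single c0 1, hsubC (single_mem hc0)⟩
  have hj := fun z => joined_all' hK hcn hs' x0 (single_mem hc0) z
  obtain ⟨S, hSc, hS⟩ := main_rank0 hK hD hs' hc0 x0 rfl hj
  obtain ⟨p⟩ := hj y
  let e := FundamentalGroup.fundamentalGroupMulEquivOfPath p
  refine ⟨S.image e, Finset.card_image_le.trans hSc, ?_⟩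
  have h1 : ((S.image e : Finset _) : Set (FundamentalGroup (edgeExterior K u w) y)) =
      e.toMonoidHom '' (S : Set _) := by
    simp
  rw [h1, ← MonoidHom.map_closure, hS]
  exact Subgroup.map_top_of_surjective _ e.surjective

end ball

section ev
variable {V : Type} [DecidableEq V]

/-- `Ev c K`: the recursion `c(point) = 0`, `c({∅}) = 1`, `c(K) ≤ c(K - v) + c(lk_K(v))` gives the
value `c` for `K` -/
inductive Ev : ℕ → Finset (Finset V) → Prop
  | point (v : V) : Ev 0 {∅, {v}}
  | empty : Ev 1 {∅}
  | step (K : Finset (Finset V)) (v : V) (a b : ℕ) (hv : {v} ∈ K) (hd : Ev a (del K v))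
      (hl : Ev b (link K v)) : Ev (a + b) K

theorem ev_of_nonEvasive {K : Finset (Finset V)} (h : NonEvasive K) : Ev 0 K := by
  induction h with
  | point v => exact Ev.point v
  | step K v hv _ _ ihd ihl => exact Ev.step K v 0 0 hv ihd ihl

theorem nonEvasive_of_ev {K : Finset (Finset V)} {c : ℕ} (h : Ev c K) : c = 0 → NonEvasive K := by
  induction h with
  | point v => exact fun _ => NonEvasive.point v
  | empty => exact fun h => absurd h one_ne_zero
  | step K v a b hv _ _ ihd ihl =>
    intro h
    exact NonEvasive.step K v hv (ihd (by omega)) (ihl (by omega))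

theorem ev_zero_iff {K : Finset (Finset V)} : Ev 0 K ↔ NonEvasive K :=
  ⟨fun h => nonEvasive_of_ev h rfl, ev_of_nonEvasive⟩

theorem dis_of_ev {K : Finset (Finset V)} {c : ℕ} (h : Ev c K) : IsCx K →
    Dis c K ∧ CompLE (c + 1) K ∧ ((∀ x, {x} ∉ K) → 1 ≤ c) := by
  induction h with
  | point v =>
    intro hK
    have hd : del ({∅, {v}} : Finset (Finset V)) v = {∅} := by
      ext s
      rw [mem_del]
      simp only [Finset.mem_insert, Finset.mem_singleton]
      constructor
      · rintro ⟨h | h, h2⟩
        · exact h
        · rw [h] at h2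
          simp at h2
      · rintro rfl
        simp
    refine ⟨?_, ?_, ?_⟩
    · refine Dis.step _ v 0 0 0 le_rfl (by simp) (by rw [hd]; exact Dis.empty 0) ?_
      refine ⟨∅, by simp, ?_⟩
      intro P _ _ y hy
      rw [mem_link' hK] at hy
      exfalso
      have := hy.2
      simp only [Finset.mem_insert, Finset.mem_singleton] at this
      rcases this with h | h
      · exact absurd h (by simp)
      · have : y ∈ ({v} : Finset V) := by rw [← h]; simp
        exact hy.1 (Finset.mem_singleton.1 this).symm
    · refine ⟨{v}, by simp, ?_⟩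
      intro P _ hPv y hy
      have : y = v := by simpa using hy
      rw [this]
      exact hPv v (by simp) (by simp)
    · intro h
      exact absurd (h v) (by simp)
  | empty =>
    intro hK
    refine ⟨Dis.empty 1, ⟨∅, by simp, ?_⟩, fun _ => le_rfl⟩
    intro P _ _ y hy
    exact absurd hy (by simp)
  | step K v a b hv _ _ ihd ihl =>
    intro hK
    obtain ⟨hd1, ⟨R, hRc, hR⟩, -⟩ := ihd (hK.del v)
    obtain ⟨-, hl2, hl3⟩ := ihl (hK.link hv)
    refine ⟨Dis.step K v a b (a + b) le_rfl hv hd1 hl2, ?_, fun h => absurd hv (h v)⟩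
    have key : ∀ P : V → Prop, (∀ x y, {x, y} ∈ K → P x → P y) →
        (∀ r ∈ R, {r} ∈ K → P r) → ∀ y, {y} ∈ K → y ≠ v → P y := by
      intro P hP hPR y hy hyv
      refine hR P ?_ ?_ y (mem_del.2 ⟨hy, by simpa using hyv.symm⟩)
      · intro x z hxz
        exact hP x z (mem_del.1 hxz).1
      · intro r hr hrK
        exact hPR r hr (mem_del.1 hrK).1
    by_cases hlv : ∀ x, {x} ∉ link K v
    · have hb := hl3 hlv
      refine ⟨insert v R, (Finset.card_insert_le _ _).trans (by omega), ?_⟩
      intro P hP hPR y hy
      by_cases hyv : y = v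
      · rw [hyv]
        exact hPR v (by simp) hv
      · exact key P hP (fun r hr => hPR r (Finset.mem_insert_of_mem hr)) y hy hyv
    · push Not at hlv
      obtain ⟨x, hx⟩ := hlv
      rw [mem_link' hK] at hx
      refine ⟨R, by omega, ?_⟩
      intro P hP hPR y hy
      by_cases hyv : y = v
      · rw [hyv]
        have hxK : {x} ∈ K := hK.2 _ hx.2 _ (by simp)
        exact hP x v (by rw [Finset.pair_comm]; exact hx.2) (key P hP hPR x hxK hx.1.symm)
      · exact key P hP hPR y hy hyv

end ev

end Pool.Agent.Y857.KE
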